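import Pool.Agent.Helper234.BrownZA

/-!
# Vanishing distance implies unitary equivalence
-/

set_option autoImplicit false

open scoped BoundedContinuousFunction ComplexOrder Topology InnerProductSpace
open Filter

namespace Pool.Agent.Y678.BR

open Pool.Agent.Helper234.Brown

universe u v w

variable {R : Type u} [CStarAlgebra R] {t : PTr R} {U : Ultrafilter ℕ}
variable {M : Type v} [CStarAlgebra M] {s : PTr M}

theorem unitarilyEquiv_of_dist_eq_zero (hU : (U : Filter ℕ) ≤ cofinite) {a : ℕ → M}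
    (ha : ∀ n, ‖a n‖ ≤ 1) (hgen : Generates s a) {π ρ : UHom M t U}
    (hπ : ∀ x, un2 t U (π x) = s.n2 x) (hρ : ∀ x, un2 t U (ρ x) = s.n2 x)
    (h0 : brownDist t U a π ρ = 0) : UnitarilyEquiv t U π ρ := by
  -- lifts
  choose x hx using fun l : ℕ => Ideal.Quotient.mk_surjective (π (a l))
  choose y hy using fun l : ℕ => Ideal.Quotient.mk_surjective (ρ (a l))
  -- almost intertwining unitaries
  have h1 : ∀ k : ℕ, ∃ u : unitary (Ultrapower t U), ∀ l ≤ k,
      un2 t U (π (a l) - (u : Ultrapower t U) * ρ (a l) * star (u : Ultrapower t U)) <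
        1 / ((k : ℝ) + 1) := by
    intro k
    choose δ hδ h2 using fun l : ℕ =>
      PropQ.all ha hgen hπ hρ (a l) (1 / ((k : ℝ) + 1)) (by positivity)
    have hne : (Finset.range (k + 1)).Nonempty := ⟨0, by simp⟩
    have h3 : 0 < (Finset.range (k + 1)).inf' hne δ := by
      rw [Finset.lt_inf'_iff]
      exact fun i _ => hδ i
    have h4 : brownDist t U a π ρ < (Finset.range (k + 1)).inf' hne δ := by rw [h0]; exact h3
    obtain ⟨u, hu⟩ := exists_lt_of_ciInf_lt h4
    refine ⟨u, fun l hl => h2 l u (lt_of_lt_of_le hu (Finset.inf'_le _ ?_))⟩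
    simp only [Finset.mem_range]
    omega
  choose u hu using h1
  choose w hw1 hw2 hw3 using fun k : ℕ => exists_unitary_lift hU (u k : Ultrapower t U) (by simp)
  let E : ℕ → Set ℕ := fun k => {n | ∀ l ≤ k,
    t.n2 (x l n - w k n * y l n * star (w k n)) < 1 / ((k : ℝ) + 1)}
  have hE : ∀ k, ∀ᶠ n in (U : Filter ℕ), n ∈ E k := by
    intro k
    have h2 : ∀ l ∈ Set.Iic k, ∀ᶠ n in (U : Filter ℕ),
        t.n2 (x l n - w k n * y l n * star (w k n)) < 1 / ((k : ℝ) + 1) := by
      intro l hl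
      have h3 := t.tendsto_n2 U (x l - w k * y l * star (w k))
      have h4 : (t.ultra U).n2 (x l - w k * y l * star (w k)) < 1 / ((k : ℝ) + 1) := by
        rw [← un2_cls, map_sub, map_mul, map_mul, ← star_cls, hw3, hx, hy]
        exact hu k l hl
      exact (tendsto_order.1 h3).2 _ h4
    have h3 := (eventually_all_finite (Set.finite_Iic k)).2 h2
    filter_upwards [h3] with n hn
    exact fun l hl => hn l hl
  obtain ⟨κ, hκ1, hκ2⟩ := exists_diag hU E hE
  let W : ℕ →ᵇ R := BoundedContinuousFunction.ofNormedAddCommGroupDiscrete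
    (fun n => w (κ n) n) 1 (fun n => norm_unitary_le (hw2 (κ n) n))
  have hW : ∀ n, W n = w (κ n) n := fun n => rfl
  have hW1 : star W * W = 1 := by
    ext n
    exact (Unitary.mem_iff.1 (hw2 (κ n) n)).1
  have hW2 : W * star W = 1 := by
    ext n
    exact (Unitary.mem_iff.1 (hw2 (κ n) n)).2
  have hV : cls t U W ∈ unitary (Ultrapower t U) := by
    rw [Unitary.mem_iff]
    constructor
    · rw [star_cls, ← map_mul, hW1, map_one]
    · rw [star_cls, ← map_mul, hW2, map_one]
  have hgen' : ∀ l, π (a l) = cls t U W * ρ (a l) * star (cls t U W) := by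
    intro l
    have h2 : un2 t U (π (a l) - cls t U W * ρ (a l) * star (cls t U W)) ≤ 0 := by
      rw [← hx, ← hy, star_cls, ← map_mul, ← map_mul, ← map_sub, un2_cls]
      have h3 := t.tendsto_n2 U (x l - W * y l * star W)
      refine le_of_forall_pos_le_add fun ε hε => ?_
      obtain ⟨i, hi⟩ := exists_nat_one_div_lt hε
      rw [zero_add]
      refine le_of_tendsto h3 ?_
      filter_upwards [hκ1, hκ2 i, hκ2 l] with n hn hn1 hn2
      have h4 := hn l hn2
      have h5 : 1 / ((κ n : ℝ) + 1) ≤ 1 / ((i : ℝ) + 1) := by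
        have : (i : ℝ) ≤ κ n := by exact_mod_cast hn1
        exact one_div_le_one_div_of_le (by positivity) (by linarith)
      have h6 : (x l - W * y l * star W) n = x l n - w (κ n) n * y l n * star (w (κ n) n) := rfl
      rw [h6]
      linarith
    have h3 := un2_eq_zero (le_antisymm h2 (un2_nonneg _))
    exact sub_eq_zero.1 h3
  refine ⟨⟨cls t U W, hV⟩, fun T => ?_⟩
  have hd : distAt a π ρ ⟨cls t U W, hV⟩ = 0 := by
    unfold distAt
    have h2 : ∀ n, (1 / 4 : ℝ) ^ (n + 1) * un2 t U (π (a n) -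
        ((⟨cls t U W, hV⟩ : unitary (Ultrapower t U)) : Ultrapower t U) * ρ (a n) *
        star ((⟨cls t U W, hV⟩ : unitary (Ultrapower t U)) : Ultrapower t U)) ^ 2 = 0 := by
      intro n
      have h3 : π (a n) - ((⟨cls t U W, hV⟩ : unitary (Ultrapower t U)) : Ultrapower t U) *
          ρ (a n) * star ((⟨cls t U W, hV⟩ : unitary (Ultrapower t U)) : Ultrapower t U) = 0 :=
        sub_eq_zero.2 (hgen' n)
      rw [h3]
      have h4 : un2 t U (0 : Ultrapower t U) = 0 := by
        rw [← map_zero (cls t U), un2_cls, PTr.n2_zero]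
      rw [h4]
      simp
    simp only [h2, tsum_zero, Real.sqrt_zero]
  have h2 : un2 t U (π T - cls t U W * ρ T * star (cls t U W)) ≤ 0 := by
    refine le_of_forall_pos_le_add fun ε hε => ?_
    obtain ⟨δ, hδ, h3⟩ := PropQ.all ha hgen hπ hρ T ε hε
    have h4 := h3 ⟨cls t U W, hV⟩ (by rw [hd]; exact hδ)
    rw [zero_add]
    exact h4.le
  have h3 := un2_eq_zero (le_antisymm h2 (un2_nonneg _))
  exact sub_eq_zero.1 h3

/-- unitarily equivalent homomorphisms have distance zero -/
theorem dist_eq_zero_of_unitarilyEquiv (a : ℕ → M) {π ρ : UHom M t U}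
    (h : UnitarilyEquiv t U π ρ) : brownDist t U a π ρ = 0 := by
  obtain ⟨u, hu⟩ := h
  have h0 : 0 ≤ brownDist t U a π ρ := Real.iInf_nonneg (fun u => Real.sqrt_nonneg _)
  refine le_antisymm ?_ h0
  have h3 : brownDist t U a π ρ ≤ _ := ciInf_le (f := fun u : unitary (Ultrapower t U) =>
      Real.sqrt (∑' n : ℕ, (1 / 4 : ℝ) ^ (n + 1) *
      un2 t U (π (a n) - (u : Ultrapower t U) * ρ (a n) * star (u : Ultrapower t U)) ^ 2))
      ⟨0, by rintro _ ⟨u, rfl⟩; exact Real.sqrt_nonneg _⟩ u
  refine h3.trans (le_of_eq ?_)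
  have h4 : un2 t U (0 : Ultrapower t U) = 0 := by
    rw [← map_zero (cls t U), un2_cls, PTr.n2_zero]
  have h5 : ∀ n, (1 / 4 : ℝ) ^ (n + 1) *
      un2 t U (π (a n) - (u : Ultrapower t U) * ρ (a n) * star (u : Ultrapower t U)) ^ 2 = 0 := by
    intro n
    rw [← hu (a n), sub_self, h4]
    simp
  simp only [h5, tsum_zero, Real.sqrt_zero]

end Pool.Agent.Y678.BR
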