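import Pool.Agent.Helper234.BrownH

/-!
# The strict triangle inequality for Brown's distance
-/

set_option autoImplicit false

open scoped BoundedContinuousFunction ComplexOrder Topology InnerProductSpace
open Filter

namespace Pool.Agent.Y678.BR

open Pool.Agent.Helper234.Brown

universe u v w

theorem n2_comb {A : Type u} [CStarAlgebra A] (s : PTr A) (x y : A) (l m : ℝ) (h : l + m = 1) :
    s.n2 ((m : ℂ) • x + (l : ℂ) • y) ^ 2 =
      m * s.n2 x ^ 2 + l * s.n2 y ^ 2 - l * m * s.n2 (x - y) ^ 2 := by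
  have hm : m = 1 - l := by linarith
  subst hm
  rw [s.n2_sq, s.n2_sq, s.n2_sq, s.n2_sq]
  simp only [star_add, star_sub, star_smul, mul_add, add_mul, mul_sub, sub_mul, smul_mul_assoc,
    mul_smul_comm, map_add, map_sub, map_smul, smul_eq_mul, Complex.star_def, Complex.conj_ofReal]
  simp only [Complex.add_re, Complex.sub_re, Complex.re_ofReal_mul]
  ring

variable {R : Type u} [CStarAlgebra R] {t : PTr R} {U : Ultrafilter ℕ}

theorem un2_comb (X Y : Ultrapower t U) (l m : ℝ) (h : l + m = 1) :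
    un2 t U ((m : ℂ) • X + (l : ℂ) • Y) ^ 2 =
      m * un2 t U X ^ 2 + l * un2 t U Y ^ 2 - l * m * un2 t U (X - Y) ^ 2 := by
  obtain ⟨x, rfl⟩ := Ideal.Quotient.mk_surjective X
  obtain ⟨y, rfl⟩ := Ideal.Quotient.mk_surjective Y
  exact n2_comb (t.ultra U) x y l m h

/-- the key pointwise inequality -/
theorem key2 (X Y Z : Ultrapower t U) (r η l m : ℝ) (hη : 0 < η) (h : l + m = 1)
    (hX : un2 t U X = r) (hY : un2 t U Y = r) (hZ : un2 t U Z = r) :
    r ^ 2 ≤ (1 + η) * (r ^ 2 - l * m * un2 t U (X - Y) ^ 2) +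
      (1 + 1 / η) * (m * un2 t U (Z - X) ^ 2 + l * un2 t U (Z - Y) ^ 2 -
        l * m * un2 t U (X - Y) ^ 2) := by
  have e1 := un2_comb X Y l m h
  have e2 := un2_comb (Z - X) (Z - Y) l m h
  have e3 : Z - X - (Z - Y) = -(X - Y) := by abel
  rw [e3, un2_neg] at e2
  set W := (m : ℂ) • X + (l : ℂ) • Y with hW
  have e4 : (m : ℂ) • (Z - X) + (l : ℂ) • (Z - Y) = Z - W := by
    have h1 : (m : ℂ) + (l : ℂ) = 1 := by
      rw [← Complex.ofReal_add, add_comm, h, Complex.ofReal_one]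
    have h2 : (m : ℂ) • Z + (l : ℂ) • Z = Z := by rw [← add_smul, h1, one_smul]
    rw [hW, smul_sub, smul_sub]
    calc (m : ℂ) • Z - (m : ℂ) • X + ((l : ℂ) • Z - (l : ℂ) • Y)
        = ((m : ℂ) • Z + (l : ℂ) • Z) - ((m : ℂ) • X + (l : ℂ) • Y) := by abel
      _ = Z - ((m : ℂ) • X + (l : ℂ) • Y) := by rw [h2]
  rw [e4] at e2
  set p := un2 t U W with hp
  set q := un2 t U (Z - W) with hq
  have h3 : r ≤ p + q := by
    have h5 := un2_add_le W (Z - W)
    rw [add_sub_cancel, hZ] at h5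
    exact h5
  have hr : 0 ≤ r := hX ▸ un2_nonneg X
  have hp0 : 0 ≤ p := un2_nonneg _
  have hq0 : 0 ≤ q := un2_nonneg _
  have h6 : r ^ 2 ≤ (p + q) ^ 2 := by nlinarith
  have h7 : (p + q) ^ 2 ≤ (1 + η) * p ^ 2 + (1 + 1 / η) * q ^ 2 := by
    have h8 : 0 ≤ (η * p - q) ^ 2 / η := by positivity
    have h9 : (η * p - q) ^ 2 / η = η * p ^ 2 - 2 * p * q + 1 / η * q ^ 2 := by
      field_simp
      ring
    rw [h9] at h8
    nlinarith
  have e5 : r ^ 2 - l * m * un2 t U (X - Y) ^ 2 = p ^ 2 := by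
    rw [e1, hX, hY]
    have : m = 1 - l := by linarith
    subst this
    ring
  rw [e5, ← e2]
  exact h6.trans h7

variable {M : Type v} [CStarAlgebra M]

/-- The strict triangle inequality. -/
theorem strict_triangle (a : ℕ → M) (π σ ρ : M →⋆ₐ[ℂ] Ultrapower t U) (r : ℕ → ℝ)
    (hr : ∀ n, r n ≤ 1) (hπ : ∀ n, un2 t U (π (a n)) = r n) (hσ : ∀ n, un2 t U (σ (a n)) = r n)
    (hρ : ∀ n, un2 t U (ρ (a n)) = r n) (h1 : 0 < brownDist t U a π σ)
    (h2 : 0 < brownDist t U a σ ρ) :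
    brownDist t U a π ρ < brownDist t U a π σ + brownDist t U a σ ρ := by
  by_contra hcon
  push Not at hcon
  set D := brownDist t U a π ρ with hD
  set d₁ := brownDist t U a π σ with hd₁
  set d₂ := brownDist t U a σ ρ with hd₂
  have hDpos : 0 < D := by linarith
  have hr0 : ∀ n, 0 ≤ r n := fun n => hπ n ▸ un2_nonneg _
  set l : ℝ := d₁ / (d₁ + d₂) with hl
  set m : ℝ := d₂ / (d₁ + d₂) with hm
  have hsum : 0 < d₁ + d₂ := by linarith
  have hlm : l + m = 1 := by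
    rw [hl, hm, ← add_div]
    exact div_self hsum.ne'
  have hl0 : 0 < l := div_pos h1 hsum
  have hm0 : 0 < m := div_pos h2 hsum
  have hc0 : 0 < l * m := mul_pos hl0 hm0
  have hid : m * d₁ ^ 2 + l * d₂ ^ 2 = l * m * (d₁ + d₂) ^ 2 := by
    rw [hl, hm]
    field_simp
  set η : ℝ := l * m * D ^ 2 / 2 with hη
  have hηpos : 0 < η := by positivity
  obtain ⟨ε, hε, hε2⟩ : ∃ ε : ℝ, 0 < ε ∧
      (1 + 1 / η) * (m * (2 * d₁ * ε + ε ^ 2) + l * (2 * d₂ * ε + ε ^ 2)) < l * m * D ^ 2 / 2 := by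
    have hc : ContinuousAt (fun ε : ℝ =>
      (1 + 1 / η) * (m * (2 * d₁ * ε + ε ^ 2) + l * (2 * d₂ * ε + ε ^ 2))) 0 := by fun_prop
    have h3 : (fun ε : ℝ => (1 + 1 / η) * (m * (2 * d₁ * ε + ε ^ 2) +
        l * (2 * d₂ * ε + ε ^ 2))) 0 < l * m * D ^ 2 / 2 := by
      simp; positivity
    have h4 := (tendsto_order.1 hc.tendsto).2 _ h3
    obtain ⟨δ, hδ, hδ2⟩ := Metric.eventually_nhds_iff.mp h4
    refine ⟨δ / 2, by positivity, ?_⟩
    apply hδ2
    rw [Real.dist_eq, sub_zero, abs_of_pos (by positivity)]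
    linarith
  have hb : ∀ (σ₁ σ₂ : M →⋆ₐ[ℂ] Ultrapower t U), ∃ u : unitary (Ultrapower t U),
      Real.sqrt (∑' n : ℕ, (1 / 4 : ℝ) ^ (n + 1) *
      un2 t U (σ₁ (a n) - (u : Ultrapower t U) * σ₂ (a n) * star (u : Ultrapower t U)) ^ 2) <
        brownDist t U a σ₁ σ₂ + ε := by
    intro σ₁ σ₂
    refine exists_lt_of_ciInf_lt ?_
    change brownDist t U a σ₁ σ₂ < _
    linarith
  obtain ⟨u, hu⟩ := hb π σ
  obtain ⟨v, hv⟩ := hb σ ρ
  have hu1 : star (u : Ultrapower t U) * u = 1 := Unitary.coe_star_mul_self u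
  have hu2 : (u : Ultrapower t U) * star (u : Ultrapower t U) = 1 := Unitary.coe_mul_star_self u
  have hv1 : star (v : Ultrapower t U) * v = 1 := Unitary.coe_star_mul_self v
  have hv2 : (v : Ultrapower t U) * star (v : Ultrapower t U) = 1 := Unitary.coe_mul_star_self v
  generalize huu : (u : Ultrapower t U) = u' at hu hu1 hu2
  generalize hvv : (v : Ultrapower t U) = v' at hv hv1 hv2
  let X : ℕ → Ultrapower t U := fun n => star u' * π (a n) * u'
  let Y : ℕ → Ultrapower t U := fun n => v' * ρ (a n) * star v'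
  let Z : ℕ → Ultrapower t U := fun n => σ (a n)
  have hX : ∀ n, un2 t U (X n) = r n := fun n => by
    show un2 t U (star u' * π (a n) * u') = _
    rw [un2_mul_unitary hu2, un2_unitary_mul (by simpa using hu2), hπ]
  have hY : ∀ n, un2 t U (Y n) = r n := fun n => by
    show un2 t U (v' * ρ (a n) * star v') = _
    rw [un2_mul_unitary (by simpa using hv1), un2_unitary_mul hv1, hρ]
  have hZ : ∀ n, un2 t U (Z n) = r n := hσ
  have hZX : ∀ n, un2 t U (Z n - X n) = un2 t U (π (a n) - u' * σ (a n) * star u') := fun n => by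
    have e : π (a n) - u' * σ (a n) * star u' = -(u' * (Z n - X n) * star u') := by
      show _ = -(u' * (σ (a n) - star u' * π (a n) * u') * star u')
      rw [mul_sub, sub_mul, show u' * (star u' * π (a n) * u') * star u' =
        (u' * star u') * π (a n) * (u' * star u') by simp only [mul_assoc], hu2, one_mul, mul_one]
      abel
    rw [e, un2_neg, un2_mul_unitary (by simpa using hu1), un2_unitary_mul hu1]
  have hZY : ∀ n, un2 t U (Z n - Y n) = un2 t U (σ (a n) - v' * ρ (a n) * star v') :=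
    fun n => rfl
  have hXY : D ≤ Real.sqrt (∑' n : ℕ, (1 / 4 : ℝ) ^ (n + 1) * un2 t U (X n - Y n) ^ 2) := by
    have h3 : brownDist t U a π ρ ≤ _ := ciInf_le (f := fun u : unitary (Ultrapower t U) =>
      Real.sqrt (∑' n : ℕ, (1 / 4 : ℝ) ^ (n + 1) *
      un2 t U (π (a n) - (u : Ultrapower t U) * ρ (a n) * star (u : Ultrapower t U)) ^ 2))
      ⟨0, by rintro _ ⟨u, rfl⟩; exact Real.sqrt_nonneg _⟩ (u * v)
    refine h3.trans (le_of_eq ?_)
    congr 1
    refine tsum_congr (fun n => ?_)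
    congr 2
    have e : X n - Y n = star u' * (π (a n) - (u' * v') * ρ (a n) * star (u' * v')) * u' := by
      show star u' * π (a n) * u' - v' * ρ (a n) * star v' = _
      rw [star_mul, mul_sub, sub_mul, show star u' * (u' * v' * ρ (a n) * (star v' * star u')) * u' =
        (star u' * u') * v' * ρ (a n) * star v' * (star u' * u') by simp only [mul_assoc], hu1,
        one_mul, mul_one]
    rw [e, un2_mul_unitary hu2, un2_unitary_mul (by simpa using hu2)]
    simp only [Submonoid.coe_mul, huu, hvv]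
  have bX : ∀ n, un2 t U (X n - Y n) ≤ 2 := fun n =>
    (un2_sub_le _ _).trans (by rw [hX, hY]; linarith [hr n])
  have bZX : ∀ n, un2 t U (Z n - X n) ≤ 2 := fun n =>
    (un2_sub_le _ _).trans (by rw [hX, hZ]; linarith [hr n])
  have bZY : ∀ n, un2 t U (Z n - Y n) ≤ 2 := fun n =>
    (un2_sub_le _ _).trans (by rw [hY, hZ]; linarith [hr n])
  have s0 := summable_sq 1 hr0 hr
  have s1 := summable_sq 2 (fun n => un2_nonneg (X n - Y n)) bX
  have s2 := summable_sq 2 (fun n => un2_nonneg (Z n - X n)) bZX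
  have s3 := summable_sq 2 (fun n => un2_nonneg (Z n - Y n)) bZY
  set A := ∑' n : ℕ, (1 / 4 : ℝ) ^ (n + 1) * r n ^ 2 with hA
  set δ := ∑' n : ℕ, (1 / 4 : ℝ) ^ (n + 1) * un2 t U (X n - Y n) ^ 2 with hδ
  set α := ∑' n : ℕ, (1 / 4 : ℝ) ^ (n + 1) * un2 t U (Z n - X n) ^ 2 with hα
  set β := ∑' n : ℕ, (1 / 4 : ℝ) ^ (n + 1) * un2 t U (Z n - Y n) ^ 2 with hβ
  have hα2 : α ≤ (d₁ + ε) ^ 2 := by
    have e : α = ∑' n : ℕ, (1 / 4 : ℝ) ^ (n + 1) *
        un2 t U (π (a n) - u' * σ (a n) * star u') ^ 2 := by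
      rw [hα]; refine tsum_congr (fun n => ?_); rw [hZX]
    rw [← e] at hu
    have h0 : 0 ≤ α := tsum_nonneg (fun n => by have := un2_nonneg (Z n - X n); positivity)
    rw [← Real.sq_sqrt h0]
    have := Real.sqrt_nonneg α
    gcongr
  have hβ2 : β ≤ (d₂ + ε) ^ 2 := by
    have hv : Real.sqrt β < brownDist t U a σ ρ + ε := hv
    have h0 : 0 ≤ β := tsum_nonneg (fun n => by have := un2_nonneg (Z n - Y n); positivity)
    rw [← Real.sq_sqrt h0]
    have := Real.sqrt_nonneg β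
    gcongr
  have hδ2 : D ^ 2 ≤ δ := by
    have h0 : 0 ≤ δ := tsum_nonneg (fun n => by have := un2_nonneg (X n - Y n); positivity)
    rw [← Real.sq_sqrt h0]
    gcongr
  have hA1 : A ≤ 1 := by
    calc A ≤ ∑' n : ℕ, (1 / 4 : ℝ) ^ (n + 1) := by
          refine Summable.tsum_le_tsum (fun n => ?_) s0 summable_w
          have := hr0 n
          have := hr n
          have : r n ^ 2 ≤ 1 := by nlinarith
          have h4 : (0 : ℝ) ≤ (1/4) ^ (n+1) := by positivity
          nlinarith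
      _ ≤ 1 := by rw [tsum_w]; norm_num
  have main : A ≤ (1 + η) * (A - l * m * δ) + (1 + 1 / η) * (m * α + l * β - l * m * δ) := by
    have t2 : Summable fun n : ℕ => (1 + η) * ((1 / 4 : ℝ) ^ (n + 1) * r n ^ 2 -
      l * m * ((1 / 4 : ℝ) ^ (n + 1) * un2 t U (X n - Y n) ^ 2)) :=
      (s0.sub (s1.mul_left _)).mul_left _
    have t3 : Summable fun n : ℕ => (1 + 1 / η) *
      (m * ((1 / 4 : ℝ) ^ (n + 1) * un2 t U (Z n - X n) ^ 2) +
      l * ((1 / 4 : ℝ) ^ (n + 1) * un2 t U (Z n - Y n) ^ 2) -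
      l * m * ((1 / 4 : ℝ) ^ (n + 1) * un2 t U (X n - Y n) ^ 2)) :=
      (((s2.mul_left m).add (s3.mul_left l)).sub (s1.mul_left _)).mul_left _
    have e2 : (1 + η) * (A - l * m * δ) = ∑' n : ℕ, (1 + η) * ((1 / 4 : ℝ) ^ (n + 1) * r n ^ 2 -
      l * m * ((1 / 4 : ℝ) ^ (n + 1) * un2 t U (X n - Y n) ^ 2)) := by
      rw [tsum_mul_left, s0.tsum_sub (s1.mul_left _), tsum_mul_left]
    have e3 : (1 + 1 / η) * (m * α + l * β - l * m * δ) = ∑' n : ℕ, (1 + 1 / η) *
      (m * ((1 / 4 : ℝ) ^ (n + 1) * un2 t U (Z n - X n) ^ 2) +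
      l * ((1 / 4 : ℝ) ^ (n + 1) * un2 t U (Z n - Y n) ^ 2) -
      l * m * ((1 / 4 : ℝ) ^ (n + 1) * un2 t U (X n - Y n) ^ 2)) := by
      rw [tsum_mul_left, ((s2.mul_left m).add (s3.mul_left l)).tsum_sub (s1.mul_left _),
        (s2.mul_left m).tsum_add (s3.mul_left l), tsum_mul_left, tsum_mul_left, tsum_mul_left]
    rw [e2, e3, ← t2.tsum_add t3]
    refine Summable.tsum_le_tsum (fun n => ?_) s0 (t2.add t3)
    have hk := key2 (X n) (Y n) (Z n) (r n) η l m hηpos hlm (hX n) (hY n) (hZ n)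
    have hw : (0 : ℝ) ≤ (1 / 4) ^ (n + 1) := by positivity
    have := mul_le_mul_of_nonneg_left hk hw
    refine this.trans (le_of_eq ?_)
    ring
  have hη1 : 0 < 1 + 1 / η := by positivity
  have h5 : m * α + l * β - l * m * δ ≤ m * (2 * d₁ * ε + ε ^ 2) + l * (2 * d₂ * ε + ε ^ 2) := by
    have a1 := mul_le_mul_of_nonneg_left hα2 hm0.le
    have a2 := mul_le_mul_of_nonneg_left hβ2 hl0.le
    have a3 : (d₁ + d₂) ^ 2 ≤ D ^ 2 := by
      have : 0 ≤ d₁ + d₂ := hsum.le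
      gcongr
    have a4 := mul_le_mul_of_nonneg_left (a3.trans hδ2) hc0.le
    nlinarith
  have h6 := mul_le_mul_of_nonneg_left h5 hη1.le
  have hA0 : 0 ≤ A := tsum_nonneg (fun n => by have := hr0 n; positivity)
  have h7 : η * A ≤ η := by nlinarith
  have h8 := mul_le_mul_of_nonneg_left hδ2 hc0.le
  have h9 : 0 ≤ η * (l * m * δ) := by
    have : 0 ≤ δ := (sq_nonneg D).trans hδ2
    positivity
  have h10 : (1 + η) * (A - l * m * δ) = A + η * A - l * m * δ - η * (l * m * δ) := by ring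
  rw [h10] at main
  linarith

end Pool.Agent.Y678.BR
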