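import Pool.Agent.Helper234.BrownL
import Pool.Agent.Helper234.BrownD
import Pool.Agent.Helper278.RGNC
import Pool.Agent.Helper278.GroupMain
import Pool.Agent.H770R2.Kad.Kap2

/-!
# The trace of an abstract II₁ factor is unique
-/

set_option autoImplicit false

open scoped BoundedContinuousFunction ComplexOrder Topology InnerProductSpace
open Filter

namespace Pool.Agent.Y678.BR

open Pool.Agent.Helper234.Brown

universe u

variable {M : Type u} [CStarAlgebra M] {s : PTr M}

theorem gns_injective (hv : IsVN s) (G : GNSData M s) : Function.Injective G.π := by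
  intro x y h
  have h1 : s.n2 (x - y) = 0 := by
    rw [← G.norm_eq, map_sub, h, sub_self]
    simp
  exact sub_eq_zero.1 (hv.n2_eq_zero h1)

/-- the bicommutant of the GNS representation: self-adjoint contractions -/
theorem bic_sa (hv : IsVN s) (G : GNSData M s) (T : G.H →L[ℂ] G.H) (hT : IsSelfAdjoint T)
    (hT1 : ‖T‖ ≤ 1) (hc : ∀ y : G.H →L[ℂ] G.H, (∀ a, y * G.π a = G.π a * y) → y * T = T * y) :
    ∃ a, G.π a = T := by
  have hk := fun (z : M) (k : ℕ) => H770R2.Kad.prove_kap M G.H G.π T hT hT1 hc 2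
    ![G.ξ, G.π z G.ξ] (1 / ((k : ℝ) + 1)) (by positivity)
  -- a limit element for every `z`
  have hlim : ∀ z : M, ∃ y : M, G.π y G.ξ = T G.ξ ∧ G.π y (G.π z G.ξ) = T (G.π z G.ξ) := by
    intro z
    choose b hb1 hb2 hb3 using hk z
    have hb4 : ∀ k, ‖G.π (b k) G.ξ - T G.ξ‖ < 1 / ((k : ℝ) + 1) := fun k => by
      simpa using hb3 k 0
    have hb5 : ∀ k, ‖G.π (b k) (G.π z G.ξ) - T (G.π z G.ξ)‖ < 1 / ((k : ℝ) + 1) := fun k => by
      simpa using hb3 k 1
    have hsub : ∀ x y : M, s.n2 (x - y) = ‖G.π x G.ξ - G.π y G.ξ‖ := by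
      intro x y
      rw [← G.norm_eq, map_sub]
      rfl
    obtain ⟨y, hy1, hy2⟩ := hv.complete b hb2 (by
      intro ε hε
      obtain ⟨N, hN⟩ := exists_nat_one_div_lt (half_pos hε)
      refine ⟨N, fun m hm n hn => ?_⟩
      rw [hsub]
      have e1 : ∀ k ≥ N, 1 / ((k : ℝ) + 1) ≤ 1 / ((N : ℝ) + 1) := fun k hk => by
        have : (N : ℝ) ≤ k := by exact_mod_cast hk
        exact one_div_le_one_div_of_le (by positivity) (by linarith)
      have e2 := hb4 m
      have e3 := hb4 n
      have e4 := e1 m hm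
      have e5 := e1 n hn
      have e6 : ‖G.π (b m) G.ξ - G.π (b n) G.ξ‖ ≤
          ‖G.π (b m) G.ξ - T G.ξ‖ + ‖G.π (b n) G.ξ - T G.ξ‖ := by
        rw [← norm_neg (G.π (b n) G.ξ - T G.ξ)]
        refine le_trans (le_of_eq ?_) (norm_add_le _ _)
        congr 1
        abel
      linarith)
    have hdec : Tendsto (fun k : ℕ => 1 / ((k : ℝ) + 1)) atTop (𝓝 0) :=
      tendsto_one_div_add_atTop_nhds_zero_nat
    refine ⟨y, ?_, ?_⟩
    · have h1 : Tendsto (fun k => G.π (b k) G.ξ) atTop (𝓝 (T G.ξ)) := by
        rw [tendsto_iff_norm_sub_tendsto_zero]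
        exact squeeze_zero (fun k => norm_nonneg _) (fun k => (hb4 k).le) hdec
      have h2 : Tendsto (fun k => G.π (b k) G.ξ) atTop (𝓝 (G.π y G.ξ)) := by
        rw [tendsto_iff_norm_sub_tendsto_zero]
        refine hy2.congr fun k => ?_
        rw [hsub]
      exact tendsto_nhds_unique h2 h1
    · have h1 : Tendsto (fun k => G.π (b k) (G.π z G.ξ)) atTop (𝓝 (T (G.π z G.ξ))) := by
        rw [tendsto_iff_norm_sub_tendsto_zero]
        exact squeeze_zero (fun k => norm_nonneg _) (fun k => (hb5 k).le) hdec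
      have h2 : Tendsto (fun k => G.π (b k) (G.π z G.ξ)) atTop (𝓝 (G.π y (G.π z G.ξ))) := by
        rw [tendsto_iff_norm_sub_tendsto_zero]
        have h3 : Tendsto (fun k => s.n2 (b k - y) * ‖z‖) atTop (𝓝 0) := by
          simpa using hy2.mul_const ‖z‖
        refine squeeze_zero (fun k => norm_nonneg _) (fun k => ?_) h3
        have h4 : G.π (b k) (G.π z G.ξ) - G.π y (G.π z G.ξ) = G.π ((b k - y) * z) G.ξ := by
          rw [map_mul, map_sub]
          rfl
        rw [h4, G.norm_eq]
        exact s.n2_mul_le' _ _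
      exact tendsto_nhds_unique h2 h1
  obtain ⟨y, hy, -⟩ := hlim 0
  refine ⟨y, G.ext_of_xi fun z => ?_⟩
  obtain ⟨y', hy1', hy2'⟩ := hlim z
  have h1 : G.π y = G.π y' := G.eq_of_xi (by rw [hy, hy1'])
  rw [h1, hy2']

/-- the bicommutant of the GNS representation -/
theorem bic (hv : IsVN s) (G : GNSData M s) (T : G.H →L[ℂ] G.H)
    (hc : ∀ y : G.H →L[ℂ] G.H, (∀ a, y * G.π a = G.π a * y) → y * T = T * y) :
    ∃ a, G.π a = T := by
  -- self-adjoint operators
  have hsa : ∀ T : G.H →L[ℂ] G.H, IsSelfAdjoint T →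
      (∀ y : G.H →L[ℂ] G.H, (∀ a, y * G.π a = G.π a * y) → y * T = T * y) →
      ∃ a, G.π a = T := by
    intro T hT hc
    set r : ℝ := ‖T‖ + 1 with hr
    have hr0 : 0 < r := by positivity
    obtain ⟨a, ha⟩ := bic_sa hv G (((r⁻¹ : ℝ) : ℂ) • T) (by
        rw [isSelfAdjoint_iff, star_smul, hT.star_eq]
        congr 1
        exact Complex.conj_ofReal _) (by
        rw [norm_smul, Complex.norm_real, Real.norm_eq_abs, abs_of_pos (by positivity),
          inv_mul_le_iff₀ hr0]
        linarith) (by
        intro y hy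
        rw [mul_smul_comm, smul_mul_assoc, hc y hy])
    refine ⟨((r : ℝ) : ℂ) • a, ?_⟩
    rw [map_smul, ha, smul_smul]
    rw [← Complex.ofReal_mul, mul_inv_cancel₀ hr0.ne', Complex.ofReal_one, one_smul]
  have hcs : ∀ y : G.H →L[ℂ] G.H, (∀ a, y * G.π a = G.π a * y) → y * star T = star T * y := by
    intro y hy
    have h1 := hc (star y) (by
      intro a
      have h2 := congrArg star (hy (star a))
      rw [star_mul, star_mul, ← map_star, star_star] at h2
      exact h2.symm)
    have h2 := congrArg star h1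
    rw [star_mul, star_mul, star_star] at h2
    exact h2.symm
  obtain ⟨a, ha⟩ := hsa (T + star T) (by
    rw [isSelfAdjoint_iff, star_add, star_star, add_comm]) (by
    intro y hy
    rw [mul_add, add_mul, hc y hy, hcs y hy])
  obtain ⟨b, hb⟩ := hsa (Complex.I • (star T - T)) (by
    rw [isSelfAdjoint_iff, star_smul, star_sub, star_star]
    simp only [Complex.star_def, Complex.conj_I]
    rw [neg_smul, ← smul_neg, neg_sub]) (by
    intro y hy
    rw [mul_smul_comm, smul_mul_assoc, mul_sub, sub_mul, hc y hy, hcs y hy])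
  refine ⟨(1 / 2 : ℂ) • (a + Complex.I • b), ?_⟩
  rw [map_smul, map_add, map_smul, ha, hb, smul_smul, Complex.I_mul_I]
  have h1 : T + star T + (-1 : ℂ) • (star T - T) = (2 : ℂ) • T := by
    rw [two_smul, neg_one_smul]
    abel
  rw [h1, smul_smul]
  norm_num

/-- the von Neumann algebra of the GNS representation -/
noncomputable def vnM (hv : IsVN s) (G : GNSData M s) : VonNeumannAlgebra G.H where
  toStarSubalgebra := G.π.range
  centralizer_centralizer' := by
    apply Set.Subset.antisymm
    · intro T hT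
      obtain ⟨a, ha⟩ := bic hv G T (by
        intro y hy
        refine hT y ?_
        rintro _ ⟨a, rfl⟩
        exact (hy a).symm)
      exact ⟨a, ha⟩
    · exact Set.subset_centralizer_centralizer

/-- the trace of a II₁ factor is unique among all tracial states -/
theorem tr_unique (hs : IsIIOneFactor s) (σ : PTr M) (x : M) : σ.tr x = s.tr x := by
  have hv : IsVN s := hs.toIsVN
  obtain ⟨G⟩ := exists_gns s
  have hinj := gns_injective hv G
  let N : VonNeumannAlgebra G.H := vnM hv G
  let e : M ≃⋆ₐ[ℂ] Pool.Agent.Helper278.Elt N := StarAlgEquiv.ofInjective G.π hinj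
  have he : ∀ x, ((e x : Pool.Agent.Helper278.Elt N) : G.H →L[ℂ] G.H) = G.π x := fun x => rfl
  let L : Pool.Agent.Helper278.Elt N →ₗ[ℂ] M := (e.symm : Pool.Agent.Helper278.Elt N →⋆ₐ[ℂ] M).toAlgHom.toLinearMap
  have hL' : ∀ x, L x = e.symm x := fun x => rfl
  let T : Pool.Agent.Helper278.TracialState N :=
    { τ := s.tr.comp L
      normal := by
        refine ⟨fun k => if k = 0 then G.ξ else 0, ?_, ?_⟩
        · refine summable_of_ne_finset_zero (s := {0}) ?_
          intro k hk
          simp only [Finset.mem_singleton] at hk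
          simp [hk]
        · intro x
          rw [tsum_eq_single 0 (by intro k hk; simp [hk])]
          obtain ⟨w, rfl⟩ : ∃ w, e w = x := ⟨e.symm x, e.apply_symm_apply x⟩
          simp only [if_true, LinearMap.comp_apply, hL', StarAlgEquiv.symm_apply_apply, he]
          exact (G.inner_xi w).symm
      map_one := by
        simp only [LinearMap.comp_apply, hL', map_one]
        exact s.tr_one
      tracial := by
        intro x y
        simp only [LinearMap.comp_apply, hL', map_mul]
        exact s.tr_comm _ _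
      faithful := by
        intro x hx
        simp only [LinearMap.comp_apply, hL', map_mul, map_star] at hx
        have h1 := hv.faithful _ hx
        have h2 : e (e.symm x) = e 0 := by rw [h1]
        simpa using h2 }
  have hN : Pool.Agent.Helper278.HasTrivialCenter N := by
    rintro z ⟨w, rfl⟩ hz
    obtain ⟨c, hc⟩ := hs.center_trivial w (by
      intro y
      apply hinj
      rw [map_mul, map_mul]
      exact hz (G.π y) ⟨y, rfl⟩)
    refine ⟨c, ?_⟩
    have h1 : G.π w = algebraMap ℂ (G.H →L[ℂ] G.H) c := by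
      rw [hc]
      exact AlgHomClass.commutes G.π c
    rw [Algebra.algebraMap_eq_smul_one] at h1
    exact h1
  have hinf : ¬ FiniteDimensional ℂ (Pool.Agent.Helper278.Elt N) := by
    intro hfin
    apply hs.infinite_dim
    have hsurj : Function.Surjective L := fun x => ⟨e x, e.symm_apply_apply x⟩
    exact Module.Finite.of_surjective L hsurj
  have hLy := Pool.Agent.Helper278.lyapProp T (Pool.Agent.Helper278.diffuse_of_factor T hN hinf)
  let φ : Pool.Agent.Helper278.Elt N →ₗ[ℂ] ℂ := σ.tr.comp L
  have hφ : Pool.Agent.Helper278.IsTr φ := by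
    refine ⟨?_, ?_, ?_⟩
    · simp only [φ, LinearMap.comp_apply, hL', map_one]
      exact σ.tr_one
    · intro x y
      simp only [φ, LinearMap.comp_apply, hL', map_mul]
      exact σ.tr_comm _ _
    · intro x
      simp only [φ, LinearMap.comp_apply, hL', map_mul, map_star]
      exact σ.tr_nonneg _
  have h1 := Pool.Agent.Helper278.RG.trace_unique_base T hLy hN φ hφ (e x)
  have h2 : φ (e x) = σ.tr x := by
    simp only [φ, LinearMap.comp_apply, hL', StarAlgEquiv.symm_apply_apply]
  have h3 : T.τ (e x) = s.tr x := by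
    simp only [T, LinearMap.comp_apply, hL', StarAlgEquiv.symm_apply_apply]
  rw [← h2, h1, h3]

end Pool.Agent.Y678.BR
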