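import Pool.Agent.Helper234.BrownZE
import Pool.Agent.Y678.BR.Sat
import Pool.Agent.Y678.BR.Tr
import Pool.Agent.Y678.BR.Strict

/-!
# Brown's invariant: which II₁ factors admit an affine isometric embedding
-/

set_option autoImplicit false

open scoped BoundedContinuousFunction ComplexOrder Topology InnerProductSpace
open Filter

namespace Pool.Agent.Y678.BR

open Pool.Agent.Helper234.Brown

universe u v w

section

variable {R : Type u} [CStarAlgebra R] {t : PTr R} {U : Ultrafilter ℕ}

theorem utr_smul (c : ℂ) (X : Ultrapower t U) : utr t U (c • X) = c * utr t U X := by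
  obtain ⟨x, rfl⟩ := Ideal.Quotient.mk_surjective X
  exact (t.ultra U).tr.map_smul c x

/-- the tracial state of a homomorphism -/
noncomputable def homTr {M : Type v} [CStarAlgebra M] (π : UHom M t U) : PTr M where
  tr :=
    { toFun := fun x => utr t U (π x)
      map_add' := fun x y => by rw [map_add, utr_add]
      map_smul' := fun c x => by
        rw [map_smul, utr_smul]
        rfl }
  tr_one := by
    change utr t U (π 1) = 1
    rw [map_one, ← map_one (cls t U), utr_cls]
    exact (t.ultra U).tr_one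
  tr_comm := fun x y => by
    change utr t U (π (x * y)) = utr t U (π (y * x))
    rw [map_mul, map_mul, utr_comm]
  tr_nonneg := fun x => by
    change 0 ≤ utr t U (π (star x * x))
    rw [map_mul, map_star]
    obtain ⟨y, hy⟩ := Ideal.Quotient.mk_surjective (π x)
    rw [← hy, star_cls, ← map_mul, utr_cls]
    exact (t.ultra U).tr_nonneg y

/-- every unital homomorphism of a II₁ factor into the ultrapower preserves the 2-norm -/
theorem un2_hom {M : Type u} [CStarAlgebra M] {s : PTr M} (hs : IsIIOneFactor s)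
    (π : UHom M t U) (x : M) : un2 t U (π x) = s.n2 x := by
  have h1 : un2 t U (π x) ^ 2 = s.n2 x ^ 2 := by
    rw [un2_sq, s.n2_sq, ← tr_unique hs (homTr π) (star x * x)]
    change _ = (utr t U (π (star x * x))).re
    rw [map_mul, map_star]
  exact (sq_eq_sq₀ (un2_nonneg _) (s.n2_nonneg _)).mp h1

theorem equivalence (M : Type v) [CStarAlgebra M] :
    Equivalence (UnitarilyEquiv (M := M) t U) where
  refl π := ⟨1, fun x => by simp⟩
  symm := by
    rintro π ρ ⟨u, hu⟩
    refine ⟨star u, fun x => ?_⟩
    rw [hu x]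
    have h1 : star (u : Ultrapower t U) * u = 1 := Unitary.coe_star_mul_self u
    simp only [Unitary.coe_star, star_star]
    rw [show star (u : Ultrapower t U) * ((u : Ultrapower t U) * ρ x * star (u : Ultrapower t U)) *
      (u : Ultrapower t U) = (star (u : Ultrapower t U) * (u : Ultrapower t U)) * ρ x *
      (star (u : Ultrapower t U) * (u : Ultrapower t U)) by simp only [mul_assoc], h1, one_mul,
      mul_one]
  trans := by
    rintro π ρ σ ⟨u, hu⟩ ⟨v, hv⟩
    refine ⟨u * v, fun x => ?_⟩
    rw [hu x, hv x]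
    simp only [Submonoid.coe_mul, star_mul, mul_assoc]

theorem homClass_eq_iff {M : Type v} [CStarAlgebra M] (π ρ : UHom M t U) :
    (homClass π : HomSpace M t U) = homClass ρ ↔ UnitarilyEquiv t U π ρ := by
  constructor
  · intro h
    have h1 := Quot.eqvGen_exact h
    rwa [(equivalence M).eqvGen_iff] at h1
  · intro h
    exact Quot.sound h

theorem subsingleton_iff {M : Type v} [CStarAlgebra M] :
    Subsingleton (HomSpace M t U) ↔ ∀ π ρ : UHom M t U, UnitarilyEquiv t U π ρ := by
  constructor
  · intro h π ρ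
    exact (homClass_eq_iff π ρ).1 (Subsingleton.elim _ _)
  · intro h
    refine ⟨fun x y => ?_⟩
    induction x using Quot.ind with
    | mk π =>
      induction y using Quot.ind with
      | mk ρ => exact (homClass_eq_iff π ρ).2 (h π ρ)

theorem dist_zero_iff {M : Type u} [CStarAlgebra M] {s : PTr M} (hs : IsIIOneFactor s)
    (hU : (U : Filter ℕ) ≤ cofinite) {a : ℕ → M} (ha : ∀ n, ‖a n‖ ≤ 1) (hgen : Generates s a)
    (π ρ : UHom M t U) : brownDist t U a π ρ = 0 ↔ (homClass π : HomSpace M t U) = homClass ρ := by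
  rw [homClass_eq_iff]
  exact ⟨fun h => unitarilyEquiv_of_dist_eq_zero hU ha hgen (un2_hom hs π) (un2_hom hs ρ) h,
    fun h => dist_eq_zero_of_unitarilyEquiv a h⟩

/-- an affine isometric map forces a single point -/
theorem subsingleton_of_embedding (hR : IsHyperfinite t) (hU : (U : Filter ℕ) ≤ cofinite)
    {M : Type u} [CStarAlgebra M] {s : PTr M} (hs : IsIIOneFactor s) {a : ℕ → M}
    (ha : ∀ n, ‖a n‖ ≤ 1) (hgen : Generates s a) {B : Type w} [NormedAddCommGroup B]
    [NormedSpace ℝ B] (Φ : HomSpace M t U → B) (hΦ : IsAffine Φ) (hiso : IsIsometric a Φ) :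
    Subsingleton (HomSpace M t U) := by
  rw [subsingleton_iff]
  intro π ρ
  have h1 := dist_eq_zero_of_embedding hR s a ha π ρ (un2_hom hs π) (un2_hom hs ρ)
    (fun σ => Φ (homClass σ)) hΦ hiso
  exact unitarilyEquiv_of_dist_eq_zero hU ha hgen (un2_hom hs π) (un2_hom hs ρ) h1

/-- a single point embeds -/
theorem embedding_of_subsingleton {M : Type v} [CStarAlgebra M] (a : ℕ → M)
    (h : Subsingleton (HomSpace M t U)) {B : Type w} [NormedAddCommGroup B] [NormedSpace ℝ B] :
    ∃ Φ : HomSpace M t U → B, IsAffine Φ ∧ IsIsometric a Φ := by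
  refine ⟨fun _ => 0, ?_, ?_⟩
  · intro k s ρ π _
    simp
  · intro π ρ
    rw [sub_self, norm_zero]
    exact (dist_eq_zero_of_unitarilyEquiv a (subsingleton_iff.1 h π ρ)).symm

theorem strict {M : Type u} [CStarAlgebra M] {s : PTr M} (hs : IsIIOneFactor s)
    (hU : (U : Filter ℕ) ≤ cofinite) {a : ℕ → M} (ha : ∀ n, ‖a n‖ ≤ 1) (hgen : Generates s a)
    (π σ ρ : UHom M t U) (h1 : (homClass π : HomSpace M t U) ≠ homClass σ)
    (h2 : (homClass σ : HomSpace M t U) ≠ homClass ρ) :
    brownDist t U a π ρ < brownDist t U a π σ + brownDist t U a σ ρ := by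
  have hnn : ∀ π ρ : UHom M t U, 0 ≤ brownDist t U a π ρ := fun π ρ =>
    Real.iInf_nonneg (fun u => Real.sqrt_nonneg _)
  refine strict_triangle a π σ ρ (fun n => s.n2 (a n)) (fun n => (s.n2_le_norm _).trans (ha n))
    (fun n => un2_hom hs π _) (fun n => un2_hom hs σ _) (fun n => un2_hom hs ρ _) ?_ ?_
  · exact lt_of_le_of_ne (hnn _ _) fun h => h1 ((dist_zero_iff hs hU ha hgen π σ).1 h.symm)
  · exact lt_of_le_of_ne (hnn _ _) fun h => h2 ((dist_zero_iff hs hU ha hgen σ ρ).1 h.symm)

end

end Pool.Agent.Y678.BR
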